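import Pool.Agent.Helper66_D2.Tool
import Pool.Agent.Helper46_PP.Blk

/-!
# Part D2, module BLD

A central idempotent is the sum of the blocks below it.
-/

open scoped BigOperators

noncomputable section

namespace Pool.Agent.PP.CD2.H74

open Pool.Agent.PP Pool.Agent.Helper51_AWC Pool.Agent.Helper79_WRA

variable {F : Type} [Field F]

/-- the decomposition of a central idempotent -/
theorem dec {H : Type} [Group H] [Finite H] : ∀ e : H → F, IsIdem e →
    ∃ (m : ℕ) (f : Fin m → H → F), (∀ t, IsBlk (f t) ∧ mulF e (f t) = f t) ∧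
      (∀ t s, t ≠ s → mulF (f t) (f s) = 0) ∧ ∑ t, f t = e := by
  apply H46.idem_induction
  · exact ⟨0, fun i => i.elim0, fun t => t.elim0, fun t => t.elim0, by simp⟩
  · intro b hb
    refine ⟨1, fun _ => b, fun _ => ⟨hb, hb.1.2⟩, fun t s hts => ?_, by simp⟩
    exact absurd (Subsingleton.elim t s) hts
  · rintro e₁ e₂ h1 h2 h12 ⟨m, f, hf, hfo, hfs⟩ ⟨n, g, hg, hgo, hgs⟩
    have h21 : mulF e₂ e₁ = 0 := by rw [H46.mulF_comm h2.1, h12]
    have k1 : ∀ t, mulF e₂ (f t) = 0 := by
      intro t
      rw [← (hf t).2, ← H20.mulF_assoc, h21]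
      exact H20.zero_mulF _
    have k2 : ∀ t, mulF e₁ (g t) = 0 := by
      intro t
      rw [← (hg t).2, ← H20.mulF_assoc, h12]
      exact H20.zero_mulF _
    have k3 : ∀ t s, mulF (f t) (g s) = 0 := by
      intro t s
      rw [← (hg s).2, ← H20.mulF_assoc, H46.mulF_comm (hf t).1.1.1, k1, H20.zero_mulF]
    refine ⟨m + n, Fin.append f g, ?_, ?_, ?_⟩
    · intro t
      refine Fin.addCases (fun i => ?_) (fun i => ?_) t
      · rw [Fin.append_left]
        refine ⟨(hf i).1, ?_⟩
        rw [H20.add_mulF, (hf i).2, k1, add_zero]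
      · rw [Fin.append_right]
        refine ⟨(hg i).1, ?_⟩
        rw [H20.add_mulF, (hg i).2, k2, zero_add]
    · intro t s
      refine Fin.addCases (fun i => ?_) (fun i => ?_) t <;>
        refine Fin.addCases (fun j => ?_) (fun j => ?_) s
      · intro h
        rw [Fin.append_left, Fin.append_left]
        exact hfo i j fun h' => h (by rw [h'])
      · intro h
        rw [Fin.append_left, Fin.append_right]
        exact k3 i j
      · intro h
        rw [Fin.append_left, Fin.append_right, H46.mulF_comm (hg i).1.1.1]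
        exact k3 j i
      · intro h
        rw [Fin.append_right, Fin.append_right]
        exact hgo i j fun h' => h (by rw [h'])
    · rw [Fin.sum_univ_add]
      simp only [Fin.append_left, Fin.append_right]
      rw [hfs, hgs]

theorem bld : BldStmt := by
  intro ℓ F _ _ G _ _ C b₁ hs hc hi
  set b' : C → F := fun t => b₁ t with hb'
  have e1 : ext0 C b' = b₁ := H46.ext0_restr hs
  have inj : ∀ u v : C → F, ext0 C u = ext0 C v → u = v := by
    intro u v h
    rw [← H46.restr_ext0 u, ← H46.restr_ext0 v, h]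
  have hid : IsIdem b' := by
    constructor
    · intro x y
      exact hc y y.2 x
    · apply inj
      rw [H46.ext0_mul, e1, hi]
  obtain ⟨m, f, h1, h2, h3⟩ := dec b' hid
  refine ⟨m, fun t => ext0 C (f t), fun t => ⟨?_, ?_, ?_⟩, ?_, ?_⟩
  · exact fun x hx => H46.ext0_of_not_mem _ hx
  · change IsBlk (fun s : C => ext0 C (f t) s)
    rw [H46.restr_ext0]
    exact (h1 t).1
  · calc mulF b₁ (ext0 C (f t)) = ext0 C (mulF b' (f t)) := by rw [H46.ext0_mul, e1]
      _ = ext0 C (f t) := by rw [(h1 t).2]
  · intro t s hts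
    change mulF (ext0 C (f t)) (ext0 C (f s)) = 0
    rw [← H46.ext0_mul, h2 t s hts]
    funext x
    by_cases hx : x ∈ C
    · rw [H46.ext0_of_mem _ hx]; rfl
    · rw [H46.ext0_of_not_mem _ hx]; rfl
  · funext x
    rw [Finset.sum_apply]
    by_cases hx : x ∈ C
    · have h4 := congrFun h3 ⟨x, hx⟩
      rw [Finset.sum_apply] at h4
      rw [Finset.sum_congr rfl fun t _ => H46.ext0_of_mem (f t) hx, h4]
    · rw [Finset.sum_congr rfl fun t _ => H46.ext0_of_not_mem (f t) hx, hs x hx,
        Finset.sum_const_zero]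

end Pool.Agent.PP.CD2.H74
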