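import Pool.Agent.Helper66_D2.Stmts
import Pool.Agent.Helper51_D1.Cld

/-!
# Part D2, module NPJ

An irreducible representation over a block of positive defect is not a trace.
-/

open scoped BigOperators

noncomputable section

namespace Pool.Agent.PP.CD2.H74

open Pool.Agent.PP Pool.Agent.Helper51_AWC Pool.Agent.Helper79_WRA

theorem npj (hinv : InvStmt) : NpjStmt := by
  intro ℓ _ F _ hF G _ _ b hblk Q hQp hQ hbr k τ hτ hτb ψ h1
  classical
  have hchar := hF.char
  apply hbr
  -- the matrix comes from the group ring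
  obtain ⟨a, ha⟩ : ∃ a : G → F, ev τ a = ψ := by
    obtain ⟨y, hy⟩ := (H20.lift_surjective τ).2 hτ.2 ψ
    obtain ⟨a, rfl⟩ := H20.toMA_surjective y
    exact ⟨a, by rw [← H20.lift_toMA]; exact hy⟩
  have hprc := D1H51.prC_trace (ℓ := ℓ) a
  have hev : ev τ (fun y => ∑ᶠ g : G, a (g⁻¹ * y * g)) = 1 := by
    rw [D1H51.ev_trace_sum, ha]
    exact h1
  have hsc : ev τ (fun y => ∑ᶠ g : G, a (g⁻¹ * y * g)) = Matrix.scalar (Fin k) (1 : F) := by
    rw [hev, map_one]
  obtain ⟨u, hu, hub⟩ := hinv ℓ F hF G b _ hblk hprc.1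
    (D1H51.not_nil hτ one_ne_zero hsc hτb)
  have h3 := (H20.pci ℓ F hF G _ u hprc hu).2
  have h4 := (H20.pci ℓ F hF G _ b h3 hblk.1.1).1
  rw [hub] at h4
  -- the values at the elements which centralise `Q` vanish
  funext x
  unfold br
  split_ifs with hx
  · refine h4.2 x ?_
    have hle : Q ≤ Subgroup.centralizer ({x} : Set G) := by
      intro q hq
      rw [Subgroup.mem_centralizer_singleton_iff]
      exact Subgroup.mem_centralizer_iff.1 hx q hq
    obtain ⟨n, hn⟩ := (IsPGroup.iff_card.1 hQp)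
    have hn0 : n ≠ 0 := by
      rintro rfl
      rw [pow_zero] at hn
      exact hQ (Subgroup.card_eq_one.1 hn)
    have hd : ℓ ∣ Nat.card Q := by
      rw [hn]
      exact dvd_pow_self ℓ hn0
    exact hd.trans (Subgroup.card_dvd_of_le hle)
  · rfl

end Pool.Agent.PP.CD2.H74
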